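import Pool.Agent.X237.TP.Final

/-!
# MP_04172d_lc: a Mazurkiewicz set containing a Hamel function in every direction
-/

set_option autoImplicit false

namespace Pool.Agent.Results.MP_04172d_lc.HamelFunctionInEveryDirection

/-- The straight line `a x + b y = c` (a line when `(a, b) ≠ (0, 0)`). -/
def line (a b c : ℝ) : Set (ℝ × ℝ) := {p | a * p.1 + b * p.2 = c}

/-- A Mazurkiewicz set (two-point set) meets every straight line in exactly two points. -/
def IsMazurkiewicz (M : Set (ℝ × ℝ)) : Prop :=
  ∀ a b c : ℝ, (a ≠ 0 ∨ b ≠ 0) → (M ∩ line a b c).ncard = 2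

/-- The graph of a real function, a subset of the plane. -/
def graph (h : ℝ → ℝ) : Set (ℝ × ℝ) := {p | p.2 = h p.1}

/-- A set which is a basis of the plane as a vector space over the rationals. -/
def IsHamelBasis (G : Set (ℝ × ℝ)) : Prop :=
  LinearIndepOn ℚ id G ∧ Submodule.span ℚ G = ⊤

/-- A Hamel function: its graph is a Hamel basis of the plane. -/
def IsHamelFunction (h : ℝ → ℝ) : Prop := IsHamelBasis (graph h)

/-- The counterclockwise rotation by the angle `θ` about the origin. -/
noncomputable def rot (θ : ℝ) (p : ℝ × ℝ) : ℝ × ℝ :=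
  (p.1 * Real.cos θ - p.2 * Real.sin θ, p.1 * Real.sin θ + p.2 * Real.cos θ)

/-- There is a Mazurkiewicz set all of whose rotations about the origin contain the graph of a
Hamel function. -/
theorem result : ∃ M : Set (ℝ × ℝ), IsMazurkiewicz M ∧
    ∀ θ : ℝ, ∃ h : ℝ → ℝ, IsHamelFunction h ∧ graph h ⊆ rot θ '' M := by
  obtain ⟨M, hM, h⟩ := Pool.Agent.X237.TP.exists_twoHamel
  refine ⟨M, hM, fun θ => ?_⟩
  obtain ⟨f, g, hf, -, hfg⟩ := h θ
  refine ⟨f, hf, ?_⟩
  intro x hx
  have : x ∈ graph f ∪ graph g := Or.inl hx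
  exact hfg.symm ▸ this

end Pool.Agent.Results.MP_04172d_lc.HamelFunctionInEveryDirection
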